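import Pool.Agent.Helper292.ForceCH
import Pool.Agent.H299Z.Dual.Para

set_option autoImplicit false

namespace Pool.Agent.Results.MP_a0d807_gt.AConsistentNo

/-- (1) Some forcing notion preserves omega one and forces CH. (2) CH implies that there is a
regular Hausdorff space all of whose subspaces are paracompact, with an open neighbourhood
assignment `N` such that for no closed discrete set `D` the sets `N d`, `d ∈ D`, cover the space. -/
theorem result :
    (∃ (P : Type) (_ : Preorder P), Nonempty P ∧ ∀ p : P,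
      p ∈ Pool.Agent.Helper292.ForceCH.OmegaOnePreserved P ∧
      p ∈ Pool.Agent.Helper292.ForceCH.CHHolds P) ∧
    (Cardinal.aleph 1 = Cardinal.continuum.{0} →
      ∃ (X : Type) (_ : TopologicalSpace X), T3Space X ∧ ParacompactSpace X ∧
        (∀ S : Set X, ParacompactSpace S) ∧
        ∃ N : X → Set X, (∀ x, IsOpen (N x) ∧ x ∈ N x) ∧
          ¬ ∃ D : Set X, IsClosed D ∧ DiscreteTopology D ∧ (⋃ d ∈ D, N d) = Set.univ) := by
  refine ⟨?_, fun h => ?_⟩
  · obtain ⟨P, i, h1, h2⟩ := Pool.Agent.Helper292.ForceCH.exists_forcing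
    exact ⟨P, i, h1, fun p => ⟨(h2 p).1, (h2 p).2.2⟩⟩
  · obtain ⟨X, h1, N, h2, h3⟩ := H299Dual.main_ch h
    refine ⟨X, inferInstance, inferInstance, ?_, H299Dual.paracompact_subset X, N,
      fun x => ⟨(h2 x).1.isOpen, (h2 x).2⟩, fun ⟨D, _, hD, hU⟩ => h3 D hD hU⟩
    exact (Homeomorph.Set.univ X).paracompactSpace_iff.1 (H299Dual.paracompact_subset X _)

end Pool.Agent.Results.MP_a0d807_gt.AConsistentNo
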